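import Pool.Agent.P8H50.NK.Stm2

/-! Project NK, package LGW: the weights (core, for any function `d` with the estimates of LGE). -/

set_option autoImplicit false

namespace Pool.Agent.P8H68.NK

open FF Pool.Agent.W603.LV Pool.Agent.W603.PV
open Pool.Agent.P8H50.NK (lk WtsF)
open Pool.Agent.N750 (rk)

variable {k K : Type} [Field k] [Field K] [Algebra k K]

theorem lk_single {n : ℕ} (f : Fin n → K) (l : Fin n) : lk (Pi.single l (1 : k)) f = f l := by
  classical
  unfold lk
  rw [Finset.sum_eq_single l]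
  · rw [Pi.single_eq_same, map_one, one_mul]
  · intro i _ hi
    rw [Pi.single_eq_of_ne hi, map_zero, zero_mul]
  · intro h
    exact absurd (Finset.mem_univ l) h

theorem lk_add {n : ℕ} (f : Fin n → K) (a b : Fin n → k) : lk (a + b) f = lk a f + lk b f := by
  unfold lk
  rw [← Finset.sum_add_distrib]
  exact Finset.sum_congr rfl fun i _ => by rw [Pi.add_apply, map_add, add_mul]

theorem lk_smul {n : ℕ} (f : Fin n → K) (c : k) (a : Fin n → k) :
    lk (c • a) f = algebraMap k K c * lk a f := by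
  unfold lk
  rw [Finset.mul_sum]
  exact Finset.sum_congr rfl fun i _ => by rw [Pi.smul_apply, smul_eq_mul, map_mul, mul_assoc]

theorem ge_lk (P : Place k K) {n : ℕ} (f : Fin (n + 1) → K) (b : Fin (n + 1) → k) :
    Ge P (pord P f) (lk b f) := by
  unfold lk
  refine Ge.sum _ _ fun i _ => ?_
  have h := (Ge.const (P := P) (b i)).mul (ge_pord P f i)
  rwa [zero_add] at h

/-- forms of full rank cannot all vanish at a place -/
theorem rk_lt (P : Place k K) {n q : ℕ} {f : Fin (n + 1) → K} (hf : f ≠ 0)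
    (M : Fin q → Fin (n + 1) → k) (S : Finset (Fin q))
    (hS : ∀ j ∈ S, pord P f < P.ord (lk (M j) f)) : rk k M S < n + 1 := by
  by_contra hcon
  push Not at hcon
  have h1 : Submodule.span k (M '' (S : Set (Fin q))) = ⊤ := by
    apply Submodule.eq_top_of_finrank_eq
    refine le_antisymm (Submodule.finrank_le _) ?_
    rw [Module.finrank_fin_fun]
    exact hcon
  have h2 : ∀ v : Fin (n + 1) → k, Ge P (pord P f + 1) (lk v f) := by
    intro v
    have hv : v ∈ Submodule.span k (M '' (S : Set (Fin q))) := by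
      rw [h1]
      exact Submodule.mem_top
    induction hv using Submodule.span_induction with
    | mem x hx =>
      obtain ⟨j, hj, rfl⟩ := hx
      exact Or.inr (hS j hj)
    | zero =>
      left
      unfold lk
      exact Finset.sum_eq_zero fun i _ => by rw [Pi.zero_apply, map_zero, zero_mul]
    | add x y _ _ hx hy =>
      rw [lk_add]
      exact hx.add hy
    | smul a x _ hx =>
      rw [lk_smul]
      have h := (Ge.const (P := P) a).mul hx
      rwa [zero_add] at h
  obtain ⟨l, hl, hl'⟩ := exists_pord P (Function.ne_iff.1 hf)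
  have h3 := h2 (Pi.single l 1)
  rw [lk_single] at h3
  have h4 := h3.resolve_left hl
  omega

/-- the weighted sum at a place is at most the sum over an independent subfamily -/
theorem wsum (P : Place k K) {n q : ℕ} {f : Fin (n + 1) → K} (hf : f ≠ 0)
    {M : Fin q → Fin (n + 1) → k} {ω : Fin q → ℝ} (hW : WtsF M ω) (hM : ∀ j, lk (M j) f ≠ 0) :
    ∃ J : Finset (Fin q), LinearIndepOn k M (J : Set (Fin q)) ∧
      ∑ l, ω l * ((P.ord (lk (M l) f) : ℝ) - pord P f) ≤
        ∑ l ∈ J, ((P.ord (lk (M l) f) : ℝ) - pord P f) := by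
  classical
  have h0 : ∀ j, 0 ≤ P.ord (lk (M j) f) - pord P f := by
    intro j
    have h := (ge_lk P f (M j)).resolve_left (hM j)
    omega
  set S : Finset (Fin q) := Finset.univ.filter fun j => 0 < P.ord (lk (M j) f) - pord P f with hS
  have hrk : rk k M S < n + 1 := by
    refine rk_lt P hf M S fun j hj => ?_
    have h := (Finset.mem_filter.1 hj).2
    omega
  obtain ⟨b, hbS, hb, hsum⟩ := Pool.Agent.N750.greedy (F := k) M ω S.card S rfl
    (fun j => ((P.ord (lk (M j) f) - pord P f : ℤ) : ℝ)) (fun j => by exact_mod_cast h0 j)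
    (fun j hj => by
      have h := (Finset.mem_filter.1 hj).2
      exact_mod_cast h)
    (fun A' hA' => hW.le A' (lt_of_le_of_lt (Pool.Agent.N750.rk_mono M A' S hA') hrk))
  refine ⟨b, hb, ?_⟩
  have h2 : ∑ j, ω j * ((P.ord (lk (M j) f) - pord P f : ℤ) : ℝ) =
      ∑ j ∈ S, ω j * ((P.ord (lk (M j) f) - pord P f : ℤ) : ℝ) := by
    symm
    refine Finset.sum_subset (Finset.subset_univ _) fun j _ hj => ?_
    have h3 : ¬ 0 < P.ord (lk (M j) f) - pord P f := fun h =>
      hj (Finset.mem_filter.2 ⟨Finset.mem_univ _, h⟩)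
    have h4 : P.ord (lk (M j) f) - pord P f = 0 := le_antisymm (not_lt.1 h3) (h0 j)
    rw [h4]
    simp
  have h5 := h2.trans_le hsum
  push_cast at h5
  exact h5

/-- LGW for any function `d` with the estimates of LGE -/
theorem core {s : ℕ} {n q : Fin s → ℕ} (P : Place k K) (y : ∀ j, Fin (n j + 1) → K)
    (ℓ : ∀ j, Fin (q j) → Fin (n j + 1) → k) (ω : ∀ j, Fin (q j) → ℝ) (d : K)
    (hy : ∀ j, y j ≠ 0) (hℓ : ∀ j l, lk (ℓ j l) (y j) ≠ 0) (hW : ∀ j, WtsF (ℓ j) (ω j))
    (hd : d ≠ 0)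
    (H : ∀ J : ∀ j, Finset (Fin (q j)), (∀ j, LinearIndepOn k (ℓ j) (J j : Set (Fin (q j)))) →
      Ge P ((∑ j, ((n j + 1 : ℤ) * pord P (y j) + ∑ l ∈ J j, (P.ord (lk (ℓ j l) (y j)) -
        pord P (y j)))) - 1) d ∧ Ge P (∑ j, (n j + 1 : ℤ) * pord P (y j)) d) :
    (∑ j, ((n j + 1 : ℝ) * pord P (y j) + ∑ l, ω j l * (P.ord (lk (ℓ j l) (y j)) -
      pord P (y j)))) - 1 ≤ P.ord d ∧ (∑ j, (n j + 1 : ℝ) * pord P (y j)) ≤ P.ord d := by
  choose J hJ hJs using fun j => wsum P (hy j) (hW j) (hℓ j)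
  obtain ⟨h1, h2⟩ := H J hJ
  have h1' := h1.resolve_left hd
  have h2' := h2.resolve_left hd
  constructor
  · have h3 : ((((∑ j, ((n j + 1 : ℤ) * pord P (y j) + ∑ l ∈ J j, (P.ord (lk (ℓ j l) (y j)) -
        pord P (y j)))) - 1 : ℤ)) : ℝ) ≤ (P.ord d : ℝ) := by exact_mod_cast h1'
    refine le_trans ?_ h3
    push_cast
    refine sub_le_sub_right (Finset.sum_le_sum fun j _ => ?_) 1
    exact add_le_add le_rfl (hJs j)
  · have h3 : ((∑ j, (n j + 1 : ℤ) * pord P (y j) : ℤ) : ℝ) ≤ (P.ord d : ℝ) := by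
      exact_mod_cast h2'
    push_cast at h3
    exact h3

end Pool.Agent.P8H68.NK
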