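import Pool.Agent.P8H50.NK.Stm4
import Pool.Agent.P8H68.NK.LgwCore

/-! Project NK, package LGW. -/

set_option autoImplicit false

namespace Pool.Agent.P8H68.NK

open Pool.Agent.P8H50.NK (S_LGE S_LGW)

/-- package LGW -/
theorem lgw (h : S_LGE) : S_LGW := by
  intro k K _ _ _ _ _ s w n q ε P D hD y ℓ ω hy hℓ hW hd
  exact core P y ℓ ω _ hy hℓ hW hd fun J hJ => h k K s w n q ε P D hD y ℓ J hy hℓ hJ

end Pool.Agent.P8H68.NK
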